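import Mathlib

/-!
# The strong vertex span and the strong edge span differ by at most one

For every finite connected graph `H` one has `σ_E(H) ≤ σ_V(H) ≤ σ_E(H) + 1`, and there is a
connected graph on six vertices with `σ_V = 2` and `σ_E = 1`. Hence the maximum of
`σ_V(H) - σ_E(H)` over all finite connected graphs is `1`.
-/

set_option autoImplicit false

namespace Pool.Agent.Results.MP_5796a1_co.SpanGap

open SimpleGraph

/-- `f` is a weak homomorphism from `G` to `H`: every edge of `G` is mapped to a vertex or to an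
edge of `H`. -/
def IsWeakHom {α β : Type} (G : SimpleGraph α) (H : SimpleGraph β) (f : α → β) : Prop :=
  ∀ u v, G.Adj u v → f u = f v ∨ H.Adj (f u) (f v)

/-- `f` is edge surjective: it is surjective, and every edge of `H` is the image of an edge of `G`. -/
def EdgeSurjective {α β : Type} (G : SimpleGraph α) (H : SimpleGraph β) (f : α → β) : Prop :=
  Function.Surjective f ∧ ∀ u v, H.Adj u v → ∃ x y, G.Adj x y ∧ f x = u ∧ f y = v

/-- `m_G(f, g)`: the least distance of `f u` and `g u` in `H` over all vertices `u` of `G`. -/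
noncomputable def minDist {α β : Type} (H : SimpleGraph β) (f g : α → β) : ℕ :=
  ⨅ u, H.dist (f u) (g u)

/-- The values `m_P(f, g)` for all paths `P` (with at least one vertex) and all pairs of surjective
weak homomorphisms `f, g : P → H`. -/
def vertexValues {V : Type} (H : SimpleGraph V) : Set ℕ :=
  {m | ∃ (N : ℕ) (f g : Fin (N + 1) → V),
    (IsWeakHom (pathGraph (N + 1)) H f ∧ Function.Surjective f) ∧
    (IsWeakHom (pathGraph (N + 1)) H g ∧ Function.Surjective g) ∧ m = minDist H f g}

/-- The values `m_P(f, g)` for all paths `P` (with at least one vertex) and all pairs of edge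
surjective weak homomorphisms `f, g : P → H`. -/
def edgeValues {V : Type} (H : SimpleGraph V) : Set ℕ :=
  {m | ∃ (N : ℕ) (f g : Fin (N + 1) → V),
    (IsWeakHom (pathGraph (N + 1)) H f ∧ EdgeSurjective (pathGraph (N + 1)) H f) ∧
    (IsWeakHom (pathGraph (N + 1)) H g ∧ EdgeSurjective (pathGraph (N + 1)) H g) ∧
    m = minDist H f g}

/-- The strong vertex span `σ_V(H)`. -/
noncomputable def strongVertexSpan {V : Type} (H : SimpleGraph V) : ℕ := sSup (vertexValues H)

/-- The strong edge span `σ_E(H)`. -/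
noncomputable def strongEdgeSpan {V : Type} (H : SimpleGraph V) : ℕ := sSup (edgeValues H)

/-! ### Elementary facts -/

theorem minDist_le {α β : Type} (H : SimpleGraph β) (f g : α → β) (u : α) :
    minDist H f g ≤ H.dist (f u) (g u) := ciInf_le (OrderBot.bddBelow _) u

theorem le_minDist {α β : Type} [Nonempty α] (H : SimpleGraph β) (f g : α → β) (k : ℕ)
    (h : ∀ u, k ≤ H.dist (f u) (g u)) : k ≤ minDist H f g := le_ciInf h

theorem vertexValues_bdd {V : Type} [Finite V] (H : SimpleGraph V) : BddAbove (vertexValues H) := by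
  have : (Set.range fun p : V × V => H.dist p.1 p.2).Finite := Set.finite_range _
  obtain ⟨B, hB⟩ := this.bddAbove
  refine ⟨B, ?_⟩
  rintro m ⟨N, f, g, -, -, rfl⟩
  exact (minDist_le H f g 0).trans (hB ⟨(f 0, g 0), rfl⟩)

theorem edgeValues_subset {V : Type} (H : SimpleGraph V) : edgeValues H ⊆ vertexValues H := by
  rintro m ⟨N, f, g, hf, hg, h⟩
  exact ⟨N, f, g, ⟨hf.1, hf.2.1⟩, ⟨hg.1, hg.2.1⟩, h⟩

theorem edgeValues_bdd {V : Type} [Finite V] (H : SimpleGraph V) : BddAbove (edgeValues H) :=
  (vertexValues_bdd H).mono (edgeValues_subset H)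

/-- A walk through a given list of darts. -/
theorem exists_walk_darts {X : Type} (S : SimpleGraph X) (a : X) (L : List S.Dart)
    (hL : ∀ d ∈ L, S.Reachable a d.fst) : ∃ (b : X) (w : S.Walk a b), ∀ d ∈ L, d ∈ w.darts := by
  induction L with
  | nil => exact ⟨a, Walk.nil, by simp⟩
  | cons d L ih =>
    obtain ⟨b, w, hw⟩ := ih fun e he => hL e (List.mem_cons_of_mem _ he)
    obtain ⟨v⟩ : S.Reachable b d.fst := (Reachable.symm ⟨w⟩).trans (hL d List.mem_cons_self)
    refine ⟨d.snd, (w.append v).append (Walk.cons d.adj Walk.nil), ?_⟩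
    intro e he
    rw [Walk.darts_append, Walk.darts_append]
    rcases List.mem_cons.1 he with rfl | he
    · simp
    · simp [hw e he]

/-- The graph of the pairs of positions at distance at least `k`; both walkers move simultaneously
to a neighbour, or stay. -/
def state {V : Type} (H : SimpleGraph V) (k : ℕ) :
    SimpleGraph {p : V × V // k ≤ H.dist p.1 p.2} where
  Adj p q := p ≠ q ∧ (p.1.1 = q.1.1 ∨ H.Adj p.1.1 q.1.1) ∧ (p.1.2 = q.1.2 ∨ H.Adj p.1.2 q.1.2)
  symm := ⟨by
    rintro p q ⟨h, h1, h2⟩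
    exact ⟨h.symm, h1.imp Eq.symm fun h => h.symm, h2.imp Eq.symm fun h => h.symm⟩⟩
  loopless := ⟨fun p h => h.1 rfl⟩

theorem pathGraph_succ {n : ℕ} (i : ℕ) (h : i + 1 < n) :
    (pathGraph n).Adj ⟨i, by omega⟩ ⟨i + 1, h⟩ := by
  rw [pathGraph_adj]
  left
  rfl

/-- If all edges can be traversed from the state `a` at distance at least `k`, by both walkers, then
some value in `edgeValues` is at least `k`. -/
theorem edgeValue_of_state {V : Type} [Finite V] (H : SimpleGraph V) (k : ℕ)
    (a : {p : V × V // k ≤ H.dist p.1 p.2})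
    (h1 : ∀ u v, H.Adj u v → ∃ d : (state H k).Dart, (state H k).Reachable a d.fst ∧
      d.fst.1.1 = u ∧ d.snd.1.1 = v)
    (h2 : ∀ u v, H.Adj u v → ∃ d : (state H k).Dart, (state H k).Reachable a d.fst ∧
      d.fst.1.2 = u ∧ d.snd.1.2 = v)
    (h3 : (∀ u, ∃ v, H.Adj u v) ∨ Subsingleton V) : ∃ m ∈ edgeValues H, k ≤ m := by
  classical
  have : Fintype V := Fintype.ofFinite V
  obtain ⟨b, w, hw⟩ := exists_walk_darts (state H k) a
    ((Finset.univ.filter fun d : (state H k).Dart => (state H k).Reachable a d.fst).toList)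
    (by intro d hd; simpa using hd)
  have hw' : ∀ d : (state H k).Dart, (state H k).Reachable a d.fst → d ∈ w.darts := by
    intro d hd
    exact hw d (by simpa using hd)
  -- every dart of the walk occurs at some time
  have htime : ∀ d ∈ w.darts, ∃ i, i < w.length ∧ w.getVert i = d.fst ∧ w.getVert (i + 1) = d.snd := by
    intro d hd
    obtain ⟨i, hi, rfl⟩ := List.getElem_of_mem hd
    rw [Walk.length_darts] at hi
    refine ⟨i, hi, ?_, ?_⟩
    · rw [Walk.darts_getElem_eq_getVert]
    · rw [Walk.darts_getElem_eq_getVert]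
  have hweak : ∀ (pr : V × V → V), (∀ p q : {p : V × V // k ≤ H.dist p.1 p.2},
      (state H k).Adj p q → pr p.1 = pr q.1 ∨ H.Adj (pr p.1) (pr q.1)) →
      IsWeakHom (pathGraph (w.length + 1)) H (fun i => pr (w.getVert i).1) := by
    intro pr hpr i j hij
    rw [pathGraph_adj] at hij
    rcases hij with hij | hij
    · have h := w.adj_getVert_succ (i := i.val) (by omega)
      rw [hij] at h
      exact hpr _ _ h
    · have h := w.adj_getVert_succ (i := j.val) (by omega)
      rw [hij] at h
      exact hpr _ _ h.symm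
  have hedge : ∀ (pr : V × V → V), (∀ u v, H.Adj u v → ∃ d : (state H k).Dart,
      (state H k).Reachable a d.fst ∧ pr d.fst.1 = u ∧ pr d.snd.1 = v) →
      EdgeSurjective (pathGraph (w.length + 1)) H (fun i => pr (w.getVert i).1) := by
    intro pr hpr
    have he : ∀ u v, H.Adj u v → ∃ x y, (pathGraph (w.length + 1)).Adj x y ∧
        (fun i : Fin (w.length + 1) => pr (w.getVert i).1) x = u ∧
        (fun i : Fin (w.length + 1) => pr (w.getVert i).1) y = v := by
      intro u v huv
      obtain ⟨d, hd, hu, hv⟩ := hpr u v huv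
      obtain ⟨i, hi, e1, e2⟩ := htime d (hw' d hd)
      refine ⟨⟨i, by omega⟩, ⟨i + 1, by omega⟩, pathGraph_succ i (by omega), ?_, ?_⟩
      · show pr (w.getVert i).1 = u
        rw [e1, hu]
      · show pr (w.getVert (i + 1)).1 = v
        rw [e2, hv]
    refine ⟨?_, he⟩
    intro u
    rcases h3 with h3 | h3
    · obtain ⟨v, huv⟩ := h3 u
      obtain ⟨x, -, -, hx, -⟩ := he u v huv
      exact ⟨x, hx⟩
    · exact ⟨0, Subsingleton.elim _ _⟩
  refine ⟨_, ⟨w.length, fun i => (w.getVert i).1.1, fun i => (w.getVert i).1.2,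
    ⟨hweak Prod.fst fun p q h => h.2.1, hedge Prod.fst h1⟩,
    ⟨hweak Prod.snd fun p q h => h.2.2, hedge Prod.snd h2⟩, rfl⟩, ?_⟩
  exact le_minDist H _ _ k fun i => (w.getVert i).2

theorem subsingleton_or {V : Type} (H : SimpleGraph V) (hH : H.Connected) :
    (∀ u, ∃ v, H.Adj u v) ∨ Subsingleton V := by
  by_cases hs : Subsingleton V
  · exact Or.inr hs
  · left
    intro u
    rw [not_subsingleton_iff_nontrivial] at hs
    exact hH.preconnected.exists_adj_of_nontrivial u

theorem edgeValues_nonempty {V : Type} [Finite V] (H : SimpleGraph V) (hH : H.Connected) :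
    (edgeValues H).Nonempty := by
  obtain ⟨a⟩ := hH.nonempty
  have hreach : ∀ p q : {p : V × V // 0 ≤ H.dist p.1 p.2}, (state H 0).Reachable p q := by
    have e1 : ∀ (u v w : V), H.Adj u v →
        (state H 0).Reachable ⟨(u, w), Nat.zero_le _⟩ ⟨(v, w), Nat.zero_le _⟩ := by
      intro u v w h
      refine Adj.reachable ⟨?_, Or.inr h, Or.inl rfl⟩
      intro he
      exact h.ne (congrArg (fun p => p.1.1) he)
    have e2 : ∀ (u v w : V), H.Adj u v →
        (state H 0).Reachable ⟨(w, u), Nat.zero_le _⟩ ⟨(w, v), Nat.zero_le _⟩ := by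
      intro u v w h
      refine Adj.reachable ⟨?_, Or.inl rfl, Or.inr h⟩
      intro he
      exact h.ne (congrArg (fun p => p.1.2) he)
    have f1 : ∀ (u v w : V), (state H 0).Reachable ⟨(u, w), Nat.zero_le _⟩ ⟨(v, w), Nat.zero_le _⟩ := by
      intro u v w
      obtain ⟨p⟩ := hH.preconnected u v
      induction p with
      | nil => exact Reachable.refl _
      | cons h _ ih => exact (e1 _ _ _ h).trans ih
    have f2 : ∀ (u v w : V), (state H 0).Reachable ⟨(w, u), Nat.zero_le _⟩ ⟨(w, v), Nat.zero_le _⟩ := by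
      intro u v w
      obtain ⟨p⟩ := hH.preconnected u v
      induction p with
      | nil => exact Reachable.refl _
      | cons h _ ih => exact (e2 _ _ _ h).trans ih
    rintro ⟨⟨u, w⟩, _⟩ ⟨⟨u', w'⟩, _⟩
    exact (f1 u u' w).trans (f2 w w' u')
  suffices h : ∃ m ∈ edgeValues H, 0 ≤ m by
    obtain ⟨m, hm, -⟩ := h
    exact ⟨m, hm⟩
  refine edgeValue_of_state H 0 ⟨(a, a), Nat.zero_le _⟩ ?_ ?_ (subsingleton_or H hH)
  · intro u v huv
    refine ⟨⟨(⟨(u, a), Nat.zero_le _⟩, ⟨(v, a), Nat.zero_le _⟩), ?_, Or.inr huv, Or.inl rfl⟩,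
      hreach _ _, rfl, rfl⟩
    intro he
    exact huv.ne (congrArg (fun p => p.1.1) he)
  · intro u v huv
    refine ⟨⟨(⟨(a, u), Nat.zero_le _⟩, ⟨(a, v), Nat.zero_le _⟩), ?_, Or.inl rfl, Or.inr huv⟩,
      hreach _ _, rfl, rfl⟩
    intro he
    exact huv.ne (congrArg (fun p => p.1.2) he)

/-- The key step: when a walker is at `u` and the other one stays, the walker can traverse an edge
at `u` back and forth; the distance drops by at most one. -/
theorem edgeValue_ge {V : Type} [Finite V] (H : SimpleGraph V) (hH : H.Connected) (k : ℕ)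
    (hk : ∃ m ∈ vertexValues H, k + 1 ≤ m) : ∃ m ∈ edgeValues H, k ≤ m := by
  obtain ⟨m, ⟨N, f, g, ⟨hf, hfs⟩, ⟨hg, hgs⟩, rfl⟩, hm⟩ := hk
  have hd : ∀ i, k + 1 ≤ H.dist (f i) (g i) := fun i => hm.trans (minDist_le H f g i)
  have hd' : ∀ i, k ≤ H.dist (f i) (g i) := fun i => (Nat.le_succ k).trans (hd i)
  -- all states are reachable from the first one
  have hreach : ∀ i (hi : i < N + 1), (state H k).Reachable ⟨(f 0, g 0), hd' 0⟩
      ⟨(f ⟨i, hi⟩, g ⟨i, hi⟩), hd' _⟩ := by
    intro i
    induction i with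
    | zero => intro _; exact Reachable.refl _
    | succ i ih =>
      intro hi
      refine (ih (by omega)).trans ?_
      by_cases he : (⟨(f ⟨i, by omega⟩, g ⟨i, by omega⟩), hd' _⟩ :
          {p : V × V // k ≤ H.dist p.1 p.2}) = ⟨(f ⟨i + 1, hi⟩, g ⟨i + 1, hi⟩), hd' _⟩
      · rw [he]
      · exact Adj.reachable ⟨he, hf _ _ (pathGraph_succ i hi), hg _ _ (pathGraph_succ i hi)⟩
  have htri : ∀ u v w, H.Adj u v → H.dist u w ≤ H.dist v w + 1 := by
    intro u v w h
    have := hH.dist_triangle (u := u) (v := v) (w := w)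
    rw [dist_eq_one_iff_adj.2 h] at this
    omega
  refine edgeValue_of_state H k ⟨(f 0, g 0), hd' 0⟩ ?_ ?_ (subsingleton_or H hH)
  · intro u v huv
    obtain ⟨i, rfl⟩ := hfs u
    have h1 : k ≤ H.dist v (g i) := by
      have := htri (f i) v (g i) huv
      have := hd i
      omega
    refine ⟨⟨(⟨(f i, g i), hd' i⟩, ⟨(v, g i), h1⟩), ?_, Or.inr huv, Or.inl rfl⟩,
      hreach i.val i.isLt, rfl, rfl⟩
    intro he
    exact huv.ne (congrArg (fun p => p.1.1) he)
  · intro u v huv
    obtain ⟨i, rfl⟩ := hgs u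
    have h1 : k ≤ H.dist (f i) v := by
      have := htri (g i) v (f i) huv
      have := hd i
      rw [dist_comm (u := g i), dist_comm (u := v)] at *
      omega
    refine ⟨⟨(⟨(f i, g i), hd' i⟩, ⟨(f i, v), h1⟩), ?_, Or.inl rfl, Or.inr huv⟩,
      hreach i.val i.isLt, rfl, rfl⟩
    intro he
    exact huv.ne (congrArg (fun p => p.1.2) he)

/-- Both maxima are attained. -/
theorem span_greatest {V : Type} [Finite V] (H : SimpleGraph V) (hH : H.Connected) :
    IsGreatest (vertexValues H) (strongVertexSpan H) ∧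
      IsGreatest (edgeValues H) (strongEdgeSpan H) := by
  refine ⟨⟨Nat.sSup_mem ((edgeValues_nonempty H hH).mono (edgeValues_subset H)) (vertexValues_bdd H),
    fun m hm => le_csSup (vertexValues_bdd H) hm⟩,
    ⟨Nat.sSup_mem (edgeValues_nonempty H hH) (edgeValues_bdd H),
    fun m hm => le_csSup (edgeValues_bdd H) hm⟩⟩

theorem span_bounds {V : Type} [Finite V] (H : SimpleGraph V) (hH : H.Connected) :
    strongEdgeSpan H ≤ strongVertexSpan H ∧ strongVertexSpan H ≤ strongEdgeSpan H + 1 := by
  obtain ⟨h1, h2⟩ := span_greatest H hH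
  refine ⟨h1.2 (edgeValues_subset H h2.1), ?_⟩
  rcases Nat.eq_zero_or_pos (strongVertexSpan H) with h0 | h0
  · omega
  · obtain ⟨m, hm, hm'⟩ := edgeValue_ge H hH (strongVertexSpan H - 1) ⟨_, h1.1, by omega⟩
    have := h2.2 hm
    omega

/-! ### The example -/

/-- the adjacency matrix of the example -/
def adjEx (i j : Fin 6) : Bool :=
  (![![false, true, false, true, true, true],
     ![true, false, true, true, true, false],
     ![false, true, false, true, true, false],
     ![true, true, true, false, false, false],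
     ![true, true, true, false, false, false],
     ![true, false, false, false, false, false]] : Fin 6 → Fin 6 → Bool) i j

/-- The graph with the vertices `0, …, 5` and the edges `01, 03, 04, 05, 12, 13, 14, 23, 24`. -/
def Ex : SimpleGraph (Fin 6) where
  Adj i j := adjEx i j = true
  symm := ⟨by decide⟩
  loopless := ⟨by decide⟩

instance : DecidableRel Ex.Adj := fun i j => inferInstanceAs (Decidable (adjEx i j = true))

theorem Ex_connected : Ex.Connected := by
  have h : ∀ v : Fin 6, Ex.Reachable 1 v := by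
    have h0 : Ex.Reachable 1 0 := Adj.reachable (by decide)
    intro v
    fin_cases v
    · exact h0
    · exact Reachable.refl _
    · exact Adj.reachable (by decide)
    · exact Adj.reachable (by decide)
    · exact Adj.reachable (by decide)
    · exact h0.trans (Adj.reachable (by decide))
  exact ⟨fun u v => (h u).symm.trans (h v)⟩

theorem two_le_dist (u v : Fin 6) : 2 ≤ Ex.dist u v ↔ u ≠ v ∧ ¬ Ex.Adj u v := by
  have h0 : Ex.dist u v = 0 ↔ u = v := Ex_connected.dist_eq_zero_iff
  have h1 : Ex.dist u v = 1 ↔ Ex.Adj u v := dist_eq_one_iff_adj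
  rw [← h1, Ne, ← h0]
  omega

theorem Ex_vertex : ∃ m ∈ vertexValues Ex, 2 ≤ m := by
  refine ⟨_, ⟨6, ![1, 2, 3, 0, 4, 0, 5], ![5, 0, 4, 2, 3, 2, 1], ⟨?_, by decide⟩, ⟨?_, by decide⟩, rfl⟩, ?_⟩
  · intro u v h
    rw [pathGraph_adj] at h
    revert u v
    decide
  · intro u v h
    rw [pathGraph_adj] at h
    revert u v
    decide
  · apply le_minDist
    intro u
    rw [two_le_dist]
    revert u
    decide

theorem Ex_edge : ∀ m ∈ edgeValues Ex, m ≤ 1 := by
  rintro m ⟨N, f, g, ⟨-, -, hf⟩, ⟨hg, -⟩, rfl⟩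
  by_contra hcon
  have hd : ∀ i, 2 ≤ Ex.dist (f i) (g i) := fun i => le_trans (by omega) (minDist_le Ex f g i)
  obtain ⟨x, y, hxy, hx, hy⟩ := hf 0 1 (by decide)
  have h1 := hd x
  have h2 := hd y
  have h3 := hg x y hxy
  rw [two_le_dist, hx] at h1
  rw [two_le_dist, hy] at h2
  revert h1 h2 h3
  generalize g x = p
  generalize g y = q
  revert p q
  decide

/-- For every finite connected graph `H` the two maxima which define the strong vertex span and the
strong edge span exist, and `σ_E(H) ≤ σ_V(H) ≤ σ_E(H) + 1`; moreover the greatest value of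
`σ_V(H) - σ_E(H)` over all finite connected graphs `H` is `1`. -/
theorem result :
    (∀ (V : Type) [Finite V] (H : SimpleGraph V), H.Connected →
      IsGreatest (vertexValues H) (strongVertexSpan H) ∧
      IsGreatest (edgeValues H) (strongEdgeSpan H) ∧
      strongEdgeSpan H ≤ strongVertexSpan H ∧ strongVertexSpan H ≤ strongEdgeSpan H + 1) ∧
    IsGreatest {d : ℤ | ∃ (n : ℕ) (H : SimpleGraph (Fin n)), H.Connected ∧
      d = (strongVertexSpan H : ℤ) - strongEdgeSpan H} 1 := by
  refine ⟨fun V _ H hH => ⟨(span_greatest H hH).1, (span_greatest H hH).2,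
    (span_bounds H hH).1, (span_bounds H hH).2⟩, ⟨6, Ex, Ex_connected, ?_⟩, ?_⟩
  · obtain ⟨h1, h2⟩ := span_greatest Ex Ex_connected
    obtain ⟨m, hm, hm2⟩ := Ex_vertex
    have h3 := h1.2 hm
    have h4 := Ex_edge _ h2.1
    have h5 := (span_bounds Ex Ex_connected).2
    omega
  · rintro d ⟨n, H, hH, rfl⟩
    have := (span_bounds H hH).2
    omega

end Pool.Agent.Results.MP_5796a1_co.SpanGap
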